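import Mathlib

/-!
In a complete modular spatial lattice (in particular in an algebraic modular spatial lattice) every
join-cover of a compact element is refined by a minimal join-cover.
-/

namespace Pool.Agent.Results.MP_d6b04a_al.MinimalJoinCovers

open Finset

variable {L : Type*}

/-- `X` refines `Y`. -/
def Refines [LE L] (X Y : Finset L) : Prop := ∀ x ∈ X, ∃ y ∈ Y, x ≤ y

/-- `p` is compact: if `D` is nonempty and directed and has a join `u ≥ p` then some member of `D`
lies above `p`. -/
def IsCompact [Lattice L] (p : L) : Prop :=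
  ∀ (D : Set L) (u : L), D.Nonempty → DirectedOn (· ≤ ·) D → IsLUB D u → p ≤ u → ∃ d ∈ D, p ≤ d

/-- `p` is a point (completely join-irreducible): the set of all elements strictly below `p` has a
largest element. -/
def IsPoint [Lattice L] (p : L) : Prop := ∃ m, IsGreatest {x : L | x < p} m

/-- every element is a join of points -/
def IsSpatial (L : Type*) [Lattice L] : Prop :=
  ∀ a : L, ∃ P : Set L, (∀ q ∈ P, IsPoint q) ∧ IsLUB P a

/-- `E` is a join-cover of `p`. -/
def IsJoinCover [CompleteLattice L] (p : L) (E : Finset L) : Prop := p ≤ E.sup id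

/-- `E` is a minimal join-cover of `p`. -/
def IsMinimalJoinCover [CompleteLattice L] (p : L) (E : Finset L) : Prop :=
  IsJoinCover p E ∧ ∀ X : Finset L, IsJoinCover p X → Refines X E → E ⊆ X

/-- one step: replacing one member of a join-cover by points -/
theorem step [CompleteLattice L] [IsModularLattice L] (hsp : IsSpatial L) {p : L}
    (hp : IsCompact p) (D e : L) (h : p ≤ D ⊔ e) :
    ∃ F : Finset L, (∀ f ∈ F, IsPoint f ∧ f ≤ e) ∧ p ≤ D ⊔ F.sup id ∧
      ∀ [DecidableEq L], ∀ f ∈ F, ∀ m, IsGreatest {x : L | x < f} m →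
        ¬ p ≤ D ⊔ (m ⊔ (F.erase f).sup id) := by
  classical
  set w := e ⊓ (p ⊔ D) with hw
  have hDw : p ≤ D ⊔ w := by
    have h1 : (D ⊔ e) ⊓ (p ⊔ D) = D ⊔ e ⊓ (p ⊔ D) := sup_inf_assoc_of_le e le_sup_right
    rw [hw, ← h1]
    exact le_inf h le_sup_left
  obtain ⟨P, hP, hPw⟩ := hsp w
  -- the candidates
  let good : Finset L → Prop := fun F => (∀ f ∈ F, IsPoint f ∧ f ≤ w) ∧ p ≤ D ⊔ F.sup id
  have hex : ∃ n, ∃ F, good F ∧ F.card = n := by
    let S : Set L := {x | ∃ F : Finset L, (F : Set L) ⊆ P ∧ x = D ⊔ F.sup id}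
    have hSne : S.Nonempty := ⟨D ⊔ (∅ : Finset L).sup id, ∅, by simp, rfl⟩
    have hSdir : DirectedOn (· ≤ ·) S := by
      rintro x ⟨F, hF, rfl⟩ y ⟨F', hF', rfl⟩
      refine ⟨D ⊔ (F ∪ F').sup id, ⟨F ∪ F', ?_, rfl⟩, ?_, ?_⟩
      · rw [coe_union]
        exact Set.union_subset hF hF'
      · exact sup_le_sup_left (Finset.sup_mono subset_union_left) D
      · exact sup_le_sup_left (Finset.sup_mono subset_union_right) D
    have hSlub : IsLUB S (D ⊔ w) := by
      constructor
      · rintro x ⟨F, hF, rfl⟩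
        refine sup_le_sup_left (Finset.sup_le fun f hf => ?_) D
        exact hPw.1 (hF hf)
      · intro b hb
        refine sup_le ?_ ?_
        · have h1 := hb (a := D ⊔ (∅ : Finset L).sup id) ⟨∅, by simp, rfl⟩
          exact le_sup_left.trans h1
        · refine hPw.2 fun q hq => ?_
          have h1 := hb (a := D ⊔ ({q} : Finset L).sup id) ⟨{q}, by simpa using hq, rfl⟩
          refine le_trans ?_ h1
          simp
    obtain ⟨d, ⟨F, hF, rfl⟩, hd⟩ := hp S (D ⊔ w) hSne hSdir hSlub hDw
    exact ⟨F.card, F, ⟨fun f hf => ⟨hP f (hF hf), hPw.1 (hF hf)⟩, hd⟩, rfl⟩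
  obtain ⟨F, hF, hcard⟩ := Nat.find_spec hex
  have hmin : ∀ F', good F' → F.card ≤ F'.card := by
    intro F' hF'
    rw [hcard]
    exact Nat.find_min' hex ⟨F', hF', rfl⟩
  refine ⟨F, fun f hf => ⟨(hF.1 f hf).1, (hF.1 f hf).2.trans inf_le_left⟩, hF.2, ?_⟩
  intro inst f hf m hm hle
  have hinst : inst = Classical.decEq L := Subsingleton.elim _ _
  subst hinst
  set Y := D ⊔ (F.erase f).sup id with hY
  have h1 : D ⊔ (m ⊔ (F.erase f).sup id) = m ⊔ Y := by
    rw [hY, ← sup_assoc, ← sup_assoc, sup_comm D m]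
  rw [h1] at hle
  have h2 : f ≤ m ⊔ Y := by
    refine ((hF.1 f hf).2.trans inf_le_right).trans (sup_le hle ?_)
    exact le_sup_left.trans le_sup_right
  have h3 : (m ⊔ Y) ⊓ f = m ⊔ Y ⊓ f := sup_inf_assoc_of_le Y (le_of_lt hm.1)
  rw [inf_eq_right.2 h2] at h3
  have h4 : f ≤ Y := by
    by_contra hcon
    have h5 : Y ⊓ f < f := by
      refine lt_of_le_of_ne inf_le_right fun h => hcon ?_
      rw [← h]
      exact inf_le_left
    have h6 : Y ⊓ f ≤ m := hm.2 h5
    rw [sup_eq_left.2 h6] at h3
    exact (ne_of_lt hm.1) h3.symm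
  have h5 : good (F.erase f) := by
    refine ⟨fun g hg => hF.1 g (mem_of_mem_erase hg), ?_⟩
    refine hF.2.trans (sup_le le_sup_left (Finset.sup_le fun g hg => ?_))
    by_cases hgf : g = f
    · subst hgf
      exact h4
    · exact (Finset.le_sup (f := id) (mem_erase.2 ⟨hgf, hg⟩)).trans le_sup_right
  have h6 := hmin _ h5
  have h7 := card_erase_lt_of_mem hf
  omega

/-- all steps -/
theorem steps [CompleteLattice L] [IsModularLattice L] (hsp : IsSpatial L) {p : L}
    (hp : IsCompact p) (E : Finset L) : ∀ C : L, p ≤ C ⊔ E.sup id →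
    ∃ F : Finset L, (∀ f ∈ F, IsPoint f) ∧ Refines F E ∧ p ≤ C ⊔ F.sup id ∧
      ∀ [DecidableEq L], ∀ f ∈ F, ∀ m, IsGreatest {x : L | x < f} m →
        ¬ p ≤ C ⊔ (m ⊔ (F.erase f).sup id) := by
  classical
  induction E using Finset.induction_on with
  | empty =>
    intro C h
    exact ⟨∅, by simp, fun x hx => by simp at hx, h, fun f hf => by simp at hf⟩
  | insert e E' _ ih =>
    intro C h
    have h0 : p ≤ (C ⊔ E'.sup id) ⊔ e := by
      refine h.trans ?_
      rw [Finset.sup_insert, id]
      exact sup_le (le_sup_left.trans le_sup_left)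
        (sup_le le_sup_right (le_sup_right.trans le_sup_left))
    obtain ⟨F₁, hF₁, hp₁, hm₁⟩ := step hsp hp (C ⊔ E'.sup id) e h0
    have h1 : p ≤ (C ⊔ F₁.sup id) ⊔ E'.sup id := by
      refine hp₁.trans ?_
      exact sup_le (sup_le (le_sup_left.trans le_sup_left) le_sup_right)
        (le_sup_right.trans le_sup_left)
    obtain ⟨F₂, hpt₂, hF₂, hp₂, hm₂⟩ := ih (C ⊔ F₁.sup id) h1
    have hF₂E : F₂.sup id ≤ E'.sup id := Finset.sup_le fun f hf => by
      obtain ⟨y, hy, hfy⟩ := hF₂ f hf
      exact hfy.trans (Finset.le_sup (f := id) hy)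
    refine ⟨F₁ ∪ F₂, ?_, ?_, ?_, ?_⟩
    · intro f hf
      rcases mem_union.1 hf with h2 | h2
      · exact (hF₁ f h2).1
      · exact hpt₂ f h2
    · intro f hf
      rcases mem_union.1 hf with h2 | h2
      · exact ⟨e, mem_insert_self _ _, (hF₁ f h2).2⟩
      · obtain ⟨y, hy, hfy⟩ := hF₂ f h2
        exact ⟨y, mem_insert_of_mem hy, hfy⟩
    · rw [Finset.sup_union, ← sup_assoc]
      exact hp₂
    · intro inst f hf m hm hle
      have hinst : inst = Classical.decEq L := Subsingleton.elim _ _
      subst hinst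
      rcases mem_union.1 hf with h2 | h2
      · refine hm₁ f h2 m hm (hle.trans ?_)
        refine sup_le (le_sup_left.trans le_sup_left) (sup_le ?_ ?_)
        · exact le_sup_left.trans le_sup_right
        · refine Finset.sup_le fun g hg => ?_
          obtain ⟨hgf, hg'⟩ := mem_erase.1 hg
          rcases mem_union.1 hg' with h3 | h3
          · exact (Finset.le_sup (f := id) (mem_erase.2 ⟨hgf, h3⟩)).trans
              (le_sup_right.trans le_sup_right)
          · exact (Finset.le_sup (f := id) h3).trans (hF₂E.trans (le_sup_right.trans le_sup_left))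
      · refine hm₂ f h2 m hm (hle.trans ?_)
        refine sup_le (le_sup_left.trans le_sup_left) (sup_le ?_ ?_)
        · exact le_sup_left.trans le_sup_right
        · refine Finset.sup_le fun g hg => ?_
          obtain ⟨hgf, hg'⟩ := mem_erase.1 hg
          rcases mem_union.1 hg' with h3 | h3
          · exact (Finset.le_sup (f := id) h3).trans (le_sup_right.trans le_sup_left)
          · exact (Finset.le_sup (f := id) (mem_erase.2 ⟨hgf, h3⟩)).trans
              (le_sup_right.trans le_sup_right)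

/-- **Theorem.** Let `L` be a complete modular spatial lattice and let `p ∈ L` be compact. Then
every join-cover `E` of `p` is refined by a minimal join-cover `F` of `p`, and `F` can be taken to
consist of points. -/
theorem result (L : Type*) [CompleteLattice L] [IsModularLattice L] (hsp : IsSpatial L) (p : L)
    (hp : IsCompact p) (E : Finset L) (hE : IsJoinCover p E) :
    ∃ F : Finset L, IsMinimalJoinCover p F ∧ Refines F E ∧ ∀ f ∈ F, IsPoint f := by
  classical
  obtain ⟨F, hpt, hF, hpF, hm⟩ := steps hsp hp E ⊥ (by rw [bot_sup_eq]; exact hE)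
  rw [bot_sup_eq] at hpF
  refine ⟨F, ⟨hpF, ?_⟩, hF, hpt⟩
  intro X hX hXF f hf
  by_contra hfX
  obtain ⟨m, hmf⟩ := hpt f hf
  refine hm f hf m hmf ?_
  rw [bot_sup_eq]
  refine le_trans hX (Finset.sup_le fun x hx => ?_)
  obtain ⟨g, hg, hxg⟩ := hXF x hx
  by_cases hgf : g = f
  · subst hgf
    have hne : x ≠ g := by
      rintro rfl
      exact hfX hx
    exact (hmf.2 (lt_of_le_of_ne hxg hne)).trans le_sup_left
  · exact (hxg.trans (Finset.le_sup (f := id) (mem_erase.2 ⟨hgf, hg⟩))).trans le_sup_right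

end Pool.Agent.Results.MP_d6b04a_al.MinimalJoinCovers
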